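import Mathlib

set_option autoImplicit false

open Polynomial Finset

namespace Pool.Agent.Results.MP_7a0dfe_nt.HeightBound

/-- The height of an integer polynomial: the maximum of the absolute values of its
coefficients (and `0` for the zero polynomial). -/
def height (f : ℤ[X]) : ℕ := f.support.sup (fun k => (f.coeff k).natAbs)

/-- `B n` is the largest height of a divisor of `X ^ n - 1` in `ℤ[X]`.  (For `n ≥ 1` the set
of these heights is finite and nonempty, see `bddAbove_heights`, so the supremum is a maximum.) -/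
noncomputable def B (n : ℕ) : ℕ :=
  sSup {h : ℕ | ∃ f : ℤ[X], f ∣ (X ^ n - 1 : ℤ[X]) ∧ height f = h}

theorem natAbs_coeff_le_height (f : ℤ[X]) (k : ℕ) : (f.coeff k).natAbs ≤ height f := by
  by_cases hk : k ∈ f.support
  · exact Finset.le_sup (f := fun k => (f.coeff k).natAbs) hk
  · rw [notMem_support_iff] at hk
    simp [hk]

theorem finite_units : Finite (ℤ[X])ˣ := by
  refine Finite.of_injective (fun u : (ℤ[X])ˣ => Units.map (constantCoeff (R := ℤ) : ℤ[X] →* ℤ) u)
    ?_
  intro u v huv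
  obtain ⟨r, -, hr⟩ := Polynomial.isUnit_iff.1 u.isUnit
  obtain ⟨s, -, hs⟩ := Polynomial.isUnit_iff.1 v.isUnit
  have h := congrArg (fun w : ℤˣ => (w : ℤ)) huv
  simp only [Units.coe_map, MonoidHom.coe_coe, ← hr, ← hs] at h
  have h' : r = s := by simpa using h
  apply Units.ext
  rw [← hr, ← hs, h']

theorem bddAbove_heights {n : ℕ} (hn : 0 < n) :
    BddAbove {h : ℕ | ∃ f : ℤ[X], f ∣ (X ^ n - 1 : ℤ[X]) ∧ height f = h} := by
  have hne : (X ^ n - 1 : ℤ[X]) ≠ 0 := by
    exact (Polynomial.monic_X_pow_sub_C (1 : ℤ) hn.ne').ne_zero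
  have := finite_units
  have : Fintype (ℤ[X])ˣ := Fintype.ofFinite _
  have : Fintype {f : ℤ[X] // f ∣ (X ^ n - 1 : ℤ[X])} :=
    UniqueFactorizationMonoid.fintypeSubtypeDvd _ hne
  have hfin : Set.Finite {f : ℤ[X] | f ∣ (X ^ n - 1 : ℤ[X])} :=
    Set.finite_coe_iff.1 (Finite.of_fintype {f : ℤ[X] // f ∣ (X ^ n - 1 : ℤ[X])})
  have : {h : ℕ | ∃ f : ℤ[X], f ∣ (X ^ n - 1 : ℤ[X]) ∧ height f = h}
      = height '' {f : ℤ[X] | f ∣ (X ^ n - 1 : ℤ[X])} := by
    ext h
    simp
  rw [this]
  exact (hfin.image height).bddAbove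

theorem height_le_B {n : ℕ} (hn : 0 < n) {f : ℤ[X]} (hf : f ∣ (X ^ n - 1 : ℤ[X])) :
    height f ≤ B n :=
  le_csSup (bddAbove_heights hn) ⟨f, hf, rfl⟩

theorem coeff_geom (m n : ℕ) :
    (∑ i ∈ range m, (X : ℤ[X]) ^ i).coeff n = if n < m then 1 else 0 := by
  rw [finsetSum_coeff]
  simp only [coeff_X_pow]
  rw [Finset.sum_ite_eq]
  simp

/-- The product of the two geometric sums. -/
noncomputable def CC (p q : ℕ) : ℤ[X] :=
  (∑ i ∈ range p, (X : ℤ[X]) ^ i) * (∑ i ∈ range q, (X : ℤ[X]) ^ i)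

theorem coeff_CC_plateau {p q : ℕ} (hp : 0 < p) (hpq : p ≤ q) : (CC p q).coeff (p - 1) = p := by
  unfold CC
  rw [coeff_mul]
  have : ∀ x ∈ antidiagonal (p - 1),
      (∑ i ∈ range p, (X : ℤ[X]) ^ i).coeff x.1 * (∑ i ∈ range q, (X : ℤ[X]) ^ i).coeff x.2
        = 1 := by
    intro x hx
    rw [HasAntidiagonal.mem_antidiagonal] at hx
    rw [coeff_geom, coeff_geom, if_pos (by omega), if_pos (by omega), one_mul]
  rw [Finset.sum_congr rfl this]
  simp only [sum_const, Finset.Nat.card_antidiagonal, nsmul_eq_mul, mul_one]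
  push_cast
  have : ((p - 1 : ℕ) : ℤ) = (p : ℤ) - 1 := by
    rw [Nat.cast_sub hp]; simp
  rw [this]; ring

theorem coeff_CC_zero {p q n : ℕ} (hn : p + q < n + 2) : (CC p q).coeff n = 0 := by
  unfold CC
  rw [coeff_mul]
  apply Finset.sum_eq_zero
  intro x hx
  rw [HasAntidiagonal.mem_antidiagonal] at hx
  rw [coeff_geom, coeff_geom]
  by_cases h1 : x.1 < p
  · by_cases h2 : x.2 < q
    · omega
    · simp [h2]
  · simp [h1]

/-- The auxiliary polynomial `Φ_{pq} · Φ_{q²}`. -/
noncomputable def GG (p q : ℕ) : ℤ[X] :=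
  cyclotomic (p * q) ℤ * expand ℤ q (∑ i ∈ range q, (X : ℤ[X]) ^ i)

theorem GG_mul {p q : ℕ} (hp : p.Prime) (hq : q.Prime) (hpq : p < q) :
    GG p q * (X ^ p - 1) = expand ℤ q (CC p q) * (X - 1) := by
  have hdiv : ¬ q ∣ p := fun h => absurd (Nat.le_of_dvd hp.pos h) (by omega)
  have := Fact.mk hp
  have h1 : expand ℤ q (cyclotomic p ℤ) = cyclotomic (p * q) ℤ * cyclotomic p ℤ :=
    cyclotomic_expand_eq_cyclotomic_mul hq hdiv ℤ
  rw [cyclotomic_prime] at h1
  unfold GG CC
  rw [map_mul, h1, ← geom_sum_mul]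
  ring

theorem exists_coeff_GG {p q : ℕ} (hp : p.Prime) (hq : q.Prime) (hpq : p < q) (h3 : 3 ≤ p) :
    ∃ m, 2 ≤ ((GG p q).coeff m).natAbs := by
  have hkey := congrArg (fun f : ℤ[X] => f.coeff (q * (p - 1) + 1)) (GG_mul hp hq hpq)
  simp only [mul_sub, mul_one, coeff_sub] at hkey
  have hle : p ≤ q * (p - 1) + 1 := by
    have : 1 * (p - 1) ≤ q * (p - 1) := Nat.mul_le_mul_right _ hq.one_lt.le
    omega
  rw [coeff_mul_X_pow', if_pos hle, coeff_mul_X, coeff_expand hq.pos, coeff_expand hq.pos,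
    if_pos (Dvd.intro _ rfl), Nat.mul_div_cancel_left _ hq.pos,
    coeff_CC_plateau hp.pos hpq.le] at hkey
  have hnd : ¬ q ∣ q * (p - 1) + 1 := by
    intro h
    have h1 : q ∣ 1 := (Nat.dvd_add_right (Dvd.intro _ rfl)).1 h
    exact hq.one_lt.ne' (Nat.dvd_one.1 h1)
  rw [if_neg hnd] at hkey
  by_contra hcon
  push Not at hcon
  have ha := hcon (q * (p - 1) + 1 - p)
  have hb := hcon (q * (p - 1) + 1)
  omega

theorem coeff_CC_mul_expand {p q : ℕ} (hp : 0 < p) (hpq : p < q) (G : ℤ[X]) (m : ℕ) :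
    (CC p q * expand ℤ q G).coeff (q * m + (p - 1)) = p * G.coeff m := by
  have hq : 0 < q := by omega
  rw [coeff_mul, Finset.sum_eq_single (p - 1, q * m)]
  · rw [coeff_CC_plateau hp hpq.le, coeff_expand hq, if_pos (Dvd.intro _ rfl),
      Nat.mul_div_cancel_left _ hq]
  · rintro ⟨a, b⟩ hab hne
    rw [HasAntidiagonal.mem_antidiagonal] at hab
    simp only at hab ⊢
    by_cases hb : q ∣ b
    · obtain ⟨c, rfl⟩ := hb
      rcases lt_trichotomy c m with h | h | h
      · have : q * (c + 1) ≤ q * m := Nat.mul_le_mul_left _ h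
        rw [mul_add, mul_one] at this
        rw [coeff_CC_zero (by omega), zero_mul]
      · subst h
        exact absurd (by
          have : a = p - 1 := by omega
          rw [this]) hne
      · have : q * (m + 1) ≤ q * c := Nat.mul_le_mul_left _ h
        rw [mul_add, mul_one] at this
        omega
    · rw [coeff_expand hq, if_neg hb, mul_zero]
  · intro h
    exact absurd (HasAntidiagonal.mem_antidiagonal.2 (by simp [add_comm])) h

theorem witness_dvd {p q b : ℕ} (hp : p.Prime) (hq : q.Prime) (hpq : p < q) (hb : 3 ≤ b) :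
    CC p q * expand ℤ q (GG p q) ∣ (X ^ (p * q ^ b) - 1 : ℤ[X]) := by
  have := Fact.mk hp
  have := Fact.mk hq
  have hn : 0 < p * q ^ b := Nat.mul_pos hp.pos (pow_pos hq.pos _)
  have hprod : CC p q * expand ℤ q (GG p q)
      = ∏ i ∈ ({p, q, p * q * q, q * q * q} : Finset ℕ), cyclotomic i ℤ := by
    have e1 : expand ℤ q (cyclotomic (p * q) ℤ) = cyclotomic (p * q * q) ℤ :=
      cyclotomic_expand_eq_cyclotomic hq (Dvd.intro_left _ rfl) ℤ
    have e2 : expand ℤ q (cyclotomic q ℤ) = cyclotomic (q * q) ℤ :=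
      cyclotomic_expand_eq_cyclotomic hq dvd_rfl ℤ
    have e3 : expand ℤ q (cyclotomic (q * q) ℤ) = cyclotomic (q * q * q) ℤ :=
      cyclotomic_expand_eq_cyclotomic hq (Dvd.intro_left _ rfl) ℤ
    have hp2 := hp.two_le
    have hq2 := hq.two_le
    have h1 : q ≠ p * q * q := by
      intro h
      have : q * 1 < q * (p * q) := by
        apply Nat.mul_lt_mul_of_pos_left _ hq.pos
        nlinarith
      nlinarith
    have h2 : q ≠ q * q * q := by
      intro h
      have : q * 1 < q * (q * q) := by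
        apply Nat.mul_lt_mul_of_pos_left _ hq.pos
        nlinarith
      nlinarith
    have h3 : p * q * q ≠ q * q * q := by
      intro h
      have : p = q := by
        have hqq : 0 < q * q := Nat.mul_pos hq.pos hq.pos
        exact Nat.eq_of_mul_eq_mul_right hqq (by rw [← mul_assoc, ← mul_assoc]; exact h)
      omega
    have h4 : p ≠ p * q * q := by
      intro h
      have : p * 1 < p * (q * q) := by
        apply Nat.mul_lt_mul_of_pos_left _ hp.pos
        nlinarith
      nlinarith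
    have h5 : p ≠ q * q * q := by
      intro h
      have : q * 1 < q * (q * q) := by
        apply Nat.mul_lt_mul_of_pos_left _ hq.pos
        nlinarith
      nlinarith
    rw [Finset.prod_insert (by simp only [Finset.mem_insert, Finset.mem_singleton]; omega),
      Finset.prod_insert (by simp only [Finset.mem_insert, Finset.mem_singleton]; omega),
      Finset.prod_insert (by simp only [Finset.mem_singleton]; omega),
      Finset.prod_singleton, ← e1, ← e3, ← e2, cyclotomic_prime ℤ p, cyclotomic_prime ℤ q]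
    unfold CC GG
    rw [map_mul]
    ring
  rw [hprod, ← prod_cyclotomic_eq_X_pow_sub_one hn]
  apply Finset.prod_dvd_prod_of_subset
  intro i hi
  simp only [Finset.mem_insert, Finset.mem_singleton] at hi
  rw [Nat.mem_divisors]
  refine ⟨?_, hn.ne'⟩
  obtain ⟨c, rfl⟩ : ∃ c, b = c + 3 := ⟨b - 3, by omega⟩
  rcases hi with rfl | rfl | rfl | rfl
  · exact Dvd.intro _ rfl
  · exact ⟨p * i ^ (c + 2), by ring⟩
  · exact ⟨q ^ (c + 1), by ring⟩
  · exact ⟨p * q ^ c, by ring⟩

/-- For all odd primes `p < q` and every `b > 2` one has `B (p * q ^ b) > p`. -/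
theorem result : ∀ p q b : ℕ, p.Prime → q.Prime → Odd p → Odd q → p < q → 2 < b →
    p < B (p * q ^ b) := by
  intro p q b hp hq hpo _ hpq hb
  have h3 : 3 ≤ p := by
    have := hp.two_le
    rcases hpo with ⟨k, hk⟩
    omega
  obtain ⟨m, hm⟩ := exists_coeff_GG hp hq hpq h3
  have hn : 0 < p * q ^ b := Nat.mul_pos hp.pos (pow_pos hq.pos _)
  have h1 := height_le_B hn (witness_dvd hp hq hpq hb)
  have h2 := natAbs_coeff_le_height (CC p q * expand ℤ q (GG p q)) (q * m + (p - 1))
  rw [coeff_CC_mul_expand hp.pos hpq, Int.natAbs_mul, Int.natAbs_natCast] at h2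
  have h4 : p * 2 ≤ p * ((GG p q).coeff m).natAbs := Nat.mul_le_mul_left _ hm
  omega

end Pool.Agent.Results.MP_7a0dfe_nt.HeightBound
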